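import Pool.Agent.H70.CS.Mix

/-!
# For which representations can the L-function of a family of Satake classes close to that of `π` continue?

Q1 asks, for every automorphic representation `π` of `GSp_{2n}` with Satake classes `A_p`, for the meromorphic
continuation of `L(s, A, ρ) = ∏_p det(1 - ρ(A_p) p^{-s})⁻¹` for all finite-dimensional representations `ρ` of the
dual group `GSpin_{2n+1}(ℂ)`.  How much of this follows formally from the continuation for some of the `ρ`?

A tempered Satake class is a point of the compact torus `Torus n` (up to the Weyl group), a virtual representation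
is the finite integral function `ρ` on the weights that gives the multiplicities, invariant under the Weyl group
(`VirtualRep n`, the representation ring); for `ρ = ρ₁ - ρ₂` one has `L(s, A, ρ) = L(s, A, ρ₁) / L(s, A, ρ₂)`.

* For every tempered family `A` and every `σ` the `ρ` for which `L(s, A, ρ)` continues to `Re s > σ` form a group;
  it contains the trivial representation (the zeta function) and with `ρ` its dual.
* **Conversely, nothing else can be said, not even for the families which agree with a given one outside a thin
  set of primes.**  Let `P` be ANY tempered family, for example the family of the Satake classes of a tempered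
  automorphic representation `π`.  Let `H` be any group of virtual representations which contains the trivial
  one and is stable under duality, and let `1/2 ≤ σ < θ < 1`.  Then there are a set `T` of primes with only
  `O(N^θ)` elements below `N`, and a tempered family `A` with `A_p = P_p` for all `p` outside `T`, such that, for
  every `ρ` for which `L(s, P, ρ)` continues to `Re s > 1/2`, the function `L(s, A, ρ)` continues to
  `Re s > 1/2` if `ρ ∈ H`, but not even to `Re s > σ`, if `ρ ∉ H`.  If nothing is known about `L(s, P, ρ)` the same is
  true of the relative L-function `L(s, A, ρ) L(s + 1 - θ, P, ρ) / L(s, P, ρ)`.  Moreover `A` can be chosen such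
  that for `ρ ∈ H` the twists of `L(s, A, ρ)` by a given countable family of Euler products `B` (with eigenvalues
  of absolute value at most one, continuing to `Re s > 1/2`; for example all Dirichlet characters, cusp forms
  which are tempered) continue to `Re s > 1/2`, if those of `L(s, P, ρ)` do.
* So, if all the L-functions of `P` continue and `X` is any set of representations, the representations whose
  L-function has to continue as soon as those of the `ρ ∈ X` do, formally, for a tempered family which agrees
  with `P` outside a thin set of primes, are those in the group generated by `X`, the duals of the `ρ ∈ X` and the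
  trivial representation, and no others.

All the L-functions of `P` are known to continue, for example, for the `π` which are induced from characters of
a maximal torus (every `n`), and for `n = 1` for all holomorphic newforms `π` (Newton and Thorne).  The theorem says
that for such a `π` one can change the classes at a thin set `T` of primes such that, for instance, `L(s, A, r)^m`
continues to `Re s > 1/2`, but no power of `L(s, A, r)` with an exponent not divisible by `m` continues beyond
`Re s > σ`, and no L-function of any other irreducible representation does.  For any automorphic `π` it says that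
an argument which only uses the classes `A_p(π)` for the `p` outside a thin set, and the continuation of some of
the L-functions of `π`, cannot prove the continuation of any other one, which is not in the group generated by the
former, their duals and the zeta function.

Proof.  (a) The free group on the weights modulo `H` has a locally finite separating family of characters to
`ℝ/ℤ`, because `ℝ/ℤ` is divisible and contains all cyclic groups.  They are lifted to real exponents
`E w l ∈ [0, 1)`. The classes `(A₀)_p` of a first family are chosen greedily, prime after prime, such that the values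
of the weights `l` at the `(A₀)_p` follow the mean values `∑_w (E w l) p^{-z_w} + (E w (-l)) p^{-conj z_w}`, with
errors `O(√N)` in the sums over `p < N` against countably many test sequences at the same time.  Then the
L-function is, up to an exponential of a function holomorphic in `Re s > 1/2`, the product of the
`ζ(s + z_w)^{W_w} ζ(s + conj z_w)^{W'_w}` where `W_w = ∑_l ρ(l) (E w l)`, and the exponents are integers exactly for
`ρ ∈ H`.  The non-vanishing of `ζ` on the line `Re s = 1` separates the branch points.  (b) Let `β = 1 - θ`. The
set `T` is chosen greedily, such that it contains `p` with probability `p^{-β}`, again with errors `O(√N)` against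
countably many test sequences, which contain the values of the weights at the `P_p` and the `(A₀)_p`.  Let
`A_p = (A₀)_p` for `p ∈ T`.  Then, up to exponentials of functions holomorphic in `Re s > 1/2`,
`L(s, A, ρ) = L(s, P, ρ) L(s + β, A₀, ρ) / L(s + β, P, ρ)`, for all `ρ` at once, and for all the twists.
-/

set_option autoImplicit false

namespace Pool.Agent.Results.MP_eea520_nt.ContinuationSets

open Pool.Agent.H70.CS

/-- **The continuation sets of the tempered families which agree with a given one outside a thin set.** -/
theorem result (n : ℕ) :
    (∀ (A : Nat.Primes → Torus n) (ρ : Weight n →₀ ℤ) (s : ℂ), 1 < s.re →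
      Multipliable fun p : Nat.Primes => ρ.prod fun l m =>
        (1 - (chr (A p) l : ℂ) * ((p : ℕ) : ℂ) ^ (-s)) ^ (-m)) ∧
    (∀ (A : Nat.Primes → Torus n) (σ : ℝ), ∃ K : AddSubgroup (Weight n →₀ ℤ), triv n ∈ K ∧
      (∀ ρ ∈ K, dual ρ ∈ K) ∧ ∀ ρ, ρ ∈ K ↔ Continues σ (LFun A ρ)) ∧
    (∀ (P : Nat.Primes → Torus n) (H : AddSubgroup (Weight n →₀ ℤ)), triv n ∈ H → (∀ ρ ∈ H, dual ρ ∈ H) →
      ∀ σ θ : ℝ, 1 / 2 ≤ σ → σ < θ → θ < 1 →
      ∀ (ι : Type) [Countable ι] (d : ι → ℕ) (B : ∀ i, Nat.Primes → Fin (d i) → ℂ),
        (∀ i p j, ‖B i p j‖ ≤ 1) → (∀ i, Continues (1 / 2) (LEuler (B i))) →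
        ∃ (T : Set Nat.Primes) (A : Nat.Primes → Torus n), Thin θ T ∧ (∀ p, p ∉ T → A p = P p) ∧
          ∀ ρ : Weight n →₀ ℤ,
            (ρ ∈ H ↔ Continues (1 / 2) (LQuot (1 - θ) P A ρ)) ∧
            (ρ ∈ H ↔ Continues σ (LQuot (1 - θ) P A ρ)) ∧
            (Continues (1 / 2) (LFun P ρ) →
              (ρ ∈ H ↔ Continues (1 / 2) (LFun A ρ)) ∧ (ρ ∈ H ↔ Continues σ (LFun A ρ))) ∧
            (ρ ∈ H → ∀ i, Continues (1 / 2) (LTwist P ρ (B i)) → Continues (1 / 2) (LTwist A ρ (B i)))) ∧
    (∀ P : Nat.Primes → Torus n, (∀ ρ ∈ VirtualRep n, Continues (1 / 2) (LFun P ρ)) →
      ∀ X : Set (Weight n →₀ ℤ), X ⊆ VirtualRep n → ∀ σ θ : ℝ, 1 / 2 ≤ σ → σ < θ → θ < 1 →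
      ∃ (T : Set Nat.Primes) (A : Nat.Primes → Torus n), Thin θ T ∧ (∀ p, p ∉ T → A p = P p) ∧
        ∀ ρ ∈ VirtualRep n, Continues σ (LFun A ρ) ↔
          ρ ∈ AddSubgroup.closure (insert (triv n) (X ∪ dual '' X))) := by
  refine ⟨fun A ρ s hs => (hasProd_fun A ρ hs).multipliable, fun A σ => continuation_group A σ,
    fun P H hH0 hHd σ θ hσ hσθ hθ ι _ d B hB hBc =>
      relative_realization P H hH0 hHd hσ hσθ hθ d B hB hBc, ?_⟩
  intro P hP X _ σ θ hσ hσθ hθ
  obtain ⟨T, A, hT, hA, h⟩ := relative_realization P
    (AddSubgroup.closure (insert (triv n) (X ∪ dual '' X)))
    (AddSubgroup.subset_closure (Set.mem_insert _ _)) (dual_closure X) hσ hσθ hθ (ι := Empty)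
    (fun i => i.elim) (fun i => i.elim) (fun i => i.elim) (fun i => i.elim)
  exact ⟨T, A, hT, hA, fun ρ hρ => ((h ρ).2.2.1 (hP ρ hρ)).2.symm⟩

end Pool.Agent.Results.MP_eea520_nt.ContinuationSets
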