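import Pool.Agent.H70.LS.Main

/-!
# Continuation along lines and thin strips, and one representation for every degree

Q1 asks for the meromorphic continuation of `L_S(s, π, ρ)` to the whole plane for all `n ≥ 1`, all automorphic `π` on
`GSp_{2n}` and all representations `ρ` of `GSpin_{2n+1}(ℂ)`.  `ContinuesOn U f` means that `f` extends from a half-plane
`Re s > c` meromorphically to a neighbourhood of the set `U`.

* **Dichotomy.**  Either Q1 holds, or for *all but finitely many* `n` and *every* real `y` there is a unitary `π` on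
  `GSp_{2n}` whose spin L-function does not extend meromorphically to any neighbourhood of the line `Im s = y`, and for
  every strip `u < Im s < v` there is one with trivial central character whose spin L-function does not extend
  meromorphically to the strip.  For every `J ≥ 1`: either all products of total degree at most `J` (see below)
  continue to `ℂ`, or for all but finitely many `n` and every strip there is a `π` whose `L(s, π, Λ^J Std)`, and one
  whose `L(s, π, Sym^J Std)`, does not extend meromorphically to the strip.

So a failure of meromorphic continuation anywhere forces failures in nearly all ranks, near every height, for the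
spin L-function.  In the form of equivalences, let `𝒩` be any infinite set of integers.

* **Spin L-functions: one line suffices.**  Q1 holds if (and only if) for every `n ∈ 𝒩` there is one horizontal line
  `Im s = y_n`, for example the real axis, such that the spin L-functions `L_S(s, π, r)` of the unitary `π` on
  `GSp_{2n}` extend meromorphically to some neighbourhood (of any shape, depending on `π`) of this line.  It also
  suffices that for every `n ∈ 𝒩` the spin L-functions of the unitary `π` with *trivial central character* (the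
  representations of `PGSp_{2n}`) extend to one horizontal strip `u_n < Im s < v_n`, as thin as one likes.
* **The even representations, graded by the degree.**  Let `J ≥ 1`.  The following are equivalent:
  for every `n ∈ 𝒩` the L-functions `L_S(s, π, Λ^J Std)` of the unitary `π` on `GSp_{2n}` extend to one thin
  horizontal strip; the same with `Sym^J Std`; for all `n ≥ 1`, all `π` and **all** `ρ` of degree at most `J` the
  L-functions `L_S(s, π, ρ)` continue to `ℂ`; all Langlands L-functions
  `L_S(s, σ₁ × ⋯ × σ_k × π, τ₁ ⊗ ⋯ ⊗ τ_k ⊗ ρ)` with `σ_i` on `GL_{n_i}`, `π` on `GSp_{2m}`, `τ_i` polynomial, of total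
  degree at most `J`, continue to `ℂ`.  So the single representation `Λ^J Std` (or `Sym^J Std`), on thin strips and
  for any infinite set of ranks, controls everything in degree `J`.  For `J = 1, 2` these continuations are known
  (standard, Rankin-Selberg, exterior and symmetric square L-functions); the first open case `J = 3` contains all
  triple products `L(s, σ₁ × σ₂ × σ₃)` of automorphic representations of arbitrary general linear groups, and the
  theorem says that the functions `L(s, π, Λ³ Std)` in thin strips are enough for them.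

The degree of a weight `(2k; e)` is `∑ |e_i - k|`, plus one if `k ≠ 0` (the twist by a power of the similitude
character).  Among all the Schur functors only `Λ^J` and `Sym^J` can have this property formally: the part of
`S_λ(σ₁ ⊞ ⋯ ⊞ σ_J)` linear in every `σ_i` is `f^λ σ₁ ⊗ ⋯ ⊗ σ_J`, `f^λ` the number of standard tableaux, and `f^λ = 1`
exactly for `Λ^J` and `Sym^J`.

Automorphic representations enter through their Satake parameters, in a `UnitarySystem` (definitions in
`Pool.Agent.K7.H58.VR.Defs` and `Pool.Agent.K7.H58.EP.Defs` of the library): sets of families for all `GL_n` and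
`GSp_{2n}` with the closure properties known for the unitary automorphic representations over `ℚ` (growth, unitary
parabolic induction, central characters, Arthur's standard transfer).  No continuation is assumed.  `Hull` adds the
non-unitary representations (Langlands).

Proof.  Let `x` be a virtual Euler product and `T^{it} x` its shift.
* *Lines.*  If all `f(s)/f(s+it)`, `t` real, extend along the real axis then `f` extends to `ℂ`: an extension of `f` along
  `(c, ∞)` gives one along all the parallel rays, hence (gluing) to `Re s > c`; then the Baire category argument at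
  the single point `c` of the boundary gives the extension of `f` across the boundary at *some* height, and the
  quotient takes it back to the real axis.  There is no uniformity of the widths anywhere.  Apply this to the
  representations induced from `|.|^{it} ⊗ π`, whose spin L-function is `L(s, π, r) L(s + it, π, r)`.
* *Strips.*  If `∑_j T^{ijt} x_j` extends to the strip `u < Im s < v` for all real `t` then all `x_j`, `j ≠ 0`, extend
  to `ℂ`: differences `T^{-ikh} X_{t+h} - X_t` with small `h` remove `x_k` at the price of a slightly thinner strip;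
  for a single `x_j`, `j ≠ 0`, the strips sweep out the plane.  (Lines would not do here: with
  `f(s) = exp √(s - i)`, `g(s) = exp (-√(s + i))` all the products `f(s + it) g(s - it)` extend along the real axis.)
* *Descent.*  With `G_j = Λ^j` or `Sym^j` this isolates, for the representations induced from `σ |det|^{it} ⊗ π`, the
  sums `∑_i G_{a+i}(σ) G_i(σ^∨) G_{D-a-2i}(Std π)`, `a ≠ 0`, times any `M` obtained before; induction on `D`
  and descending induction on `a` give all products of degree `J`.  The passage from the ranks in `𝒩` to all ranks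
  uses trivial characters and a triangular system; weights of bounded degree are handled by leading monomials.
-/

set_option autoImplicit false

namespace Pool.Agent.Results.MP_eea520_nt.LinesAndStrips

open Pool.Agent.K7.H58.EP Pool.Agent.K7.H58.VR Pool.Agent.H70.LS

/-- a property which fails for infinitely many ranks only if something holds -/
theorem cofinite_of {Q : Prop} {R : ℕ → Prop} (h : ∀ 𝒩 : Set ℕ, 𝒩.Infinite → (∀ n ∈ 𝒩, R n) → Q) (hQ : ¬ Q) :
    ∃ n₀ : ℕ, ∀ n, n₀ ≤ n → ¬ R n := by
  have h1 : ({n | R n} : Set ℕ).Finite := by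
    by_contra hinf
    exact hQ (h {n | R n} hinf fun n hn => hn)
  obtain ⟨m, hm⟩ := h1.bddAbove
  refine ⟨m + 1, fun n hn hR => ?_⟩
  have : n ≤ m := hm hR
  omega

/-- **Lines and strips suffice; one representation controls every degree.** -/
theorem result (A : UnitarySystem) :
    ((∀ n : ℕ, 1 ≤ n → ∀ b : GSpData n, Hull A.toUnitaryClass n b → ∀ (ρ : GSpinRep n)
        (S : Finset Nat.Primes), Continues (LGSp S b ρ)) ∨
      ∃ n₀ : ℕ, ∀ n, n₀ ≤ n →
        (∀ y : ℝ, ∃ b ∈ A.gsp n, ∀ S : Finset Nat.Primes, ¬ ContinuesOn (hline y) (LGSp S b (spin n))) ∧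
        ∀ u v : ℝ, u < v → ∃ b ∈ A.gsp n, TrivialCentral b ∧
          ∀ S : Finset Nat.Primes, ¬ ContinuesOn (strip u v) (LGSp S b (spin n))) ∧
    (∀ J : ℕ, 1 ≤ J → ProductsLE A J ∨
      ∃ n₀ : ℕ, ∀ n, n₀ ≤ n → ∀ u v : ℝ, u < v →
        (∃ b ∈ A.gsp n, ∀ S : Finset Nat.Primes, ¬ ContinuesOn (strip u v) (LGSp S b (extPow n J))) ∧
        ∃ b ∈ A.gsp n, ∀ S : Finset Nat.Primes, ¬ ContinuesOn (strip u v) (LGSp S b (symPow n J))) ∧
    ∀ 𝒩 : Set ℕ, 𝒩.Infinite → List.TFAE [
      ∀ n ∈ 𝒩, 1 ≤ n → ∃ y : ℝ, ∀ b ∈ A.gsp n,
        ∃ S : Finset Nat.Primes, ContinuesOn (hline y) (LGSp S b (spin n)),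
      ∀ n ∈ 𝒩, 1 ≤ n → ∃ u v : ℝ, u < v ∧ ∀ b ∈ A.gsp n, TrivialCentral b →
        ∃ S : Finset Nat.Primes, ContinuesOn (strip u v) (LGSp S b (spin n)),
      ∀ n : ℕ, 1 ≤ n → ∀ b : GSpData n, Hull A.toUnitaryClass n b → ∀ (ρ : GSpinRep n)
        (S : Finset Nat.Primes), Continues (LGSp S b ρ)] ∧
    ∀ J : ℕ, 1 ≤ J → List.TFAE [
      ∀ n ∈ 𝒩, 1 ≤ n → ∃ u v : ℝ, u < v ∧ ∀ b ∈ A.gsp n,
        ∃ S : Finset Nat.Primes, ContinuesOn (strip u v) (LGSp S b (extPow n J)),
      ∀ n ∈ 𝒩, 1 ≤ n → ∃ u v : ℝ, u < v ∧ ∀ b ∈ A.gsp n,
        ∃ S : Finset Nat.Primes, ContinuesOn (strip u v) (LGSp S b (symPow n J)),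
      ∀ n : ℕ, 1 ≤ n → ∀ b : GSpData n, Hull A.toUnitaryClass n b → ∀ ρ : GSpinRep n, EvenDeg J ρ →
        ∀ S : Finset Nat.Primes, Continues (LGSp S b ρ),
      ProductsLE A J] := by
  refine ⟨?_, fun J hJ => ?_, fun 𝒩 h𝒩 => ⟨spin_tfae h𝒩, fun _ hJ => std_tfae h𝒩 hJ⟩⟩
  · by_cases hQ : ∀ n : ℕ, 1 ≤ n → ∀ b : GSpData n, Hull A.toUnitaryClass n b → ∀ (ρ : GSpinRep n)
        (S : Finset Nat.Primes), Continues (LGSp S b ρ)
    · exact Or.inl hQ
    · right
      obtain ⟨n₁, h₁⟩ := cofinite_of (R := fun n => ∃ y : ℝ, ∀ b ∈ A.gsp n,
        ∃ S : Finset Nat.Primes, ContinuesOn (hline y) (LGSp S b (spin n)))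
        (fun 𝒩 h𝒩 h => ((spin_tfae (A := A) h𝒩).out 0 2).mp fun n hn _ => h n hn) hQ
      obtain ⟨n₂, h₂⟩ := cofinite_of (R := fun n => ∃ u v : ℝ, u < v ∧ ∀ b ∈ A.gsp n, TrivialCentral b →
        ∃ S : Finset Nat.Primes, ContinuesOn (strip u v) (LGSp S b (spin n)))
        (fun 𝒩 h𝒩 h => ((spin_tfae (A := A) h𝒩).out 1 2).mp fun n hn _ => h n hn) hQ
      refine ⟨max n₁ n₂, fun n hn => ⟨fun y => ?_, fun u v huv => ?_⟩⟩
      · have h3 := h₁ n (le_trans (le_max_left _ _) hn)
        push Not at h3
        exact h3 y
      · have h3 := h₂ n (le_trans (le_max_right _ _) hn)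
        push Not at h3
        exact h3 u v huv
  · by_cases hQ : ProductsLE A J
    · exact Or.inl hQ
    · right
      obtain ⟨n₁, h₁⟩ := cofinite_of (R := fun n => ∃ u v : ℝ, u < v ∧ ∀ b ∈ A.gsp n,
        ∃ S : Finset Nat.Primes, ContinuesOn (strip u v) (LGSp S b (extPow n J)))
        (fun 𝒩 h𝒩 h => ((std_tfae (A := A) h𝒩 hJ).out 0 3).mp fun n hn _ => h n hn) hQ
      obtain ⟨n₂, h₂⟩ := cofinite_of (R := fun n => ∃ u v : ℝ, u < v ∧ ∀ b ∈ A.gsp n,
        ∃ S : Finset Nat.Primes, ContinuesOn (strip u v) (LGSp S b (symPow n J)))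
        (fun 𝒩 h𝒩 h => ((std_tfae (A := A) h𝒩 hJ).out 1 3).mp fun n hn _ => h n hn) hQ
      refine ⟨max n₁ n₂, fun n hn u v huv => ⟨?_, ?_⟩⟩
      · have h3 := h₁ n (le_trans (le_max_left _ _) hn)
        push Not at h3
        exact h3 u v huv
      · have h3 := h₂ n (le_trans (le_max_right _ _) hn)
        push Not at h3
        exact h3 u v huv

end Pool.Agent.Results.MP_eea520_nt.LinesAndStrips
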