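import Pool.Agent.H4.RL.FinM

/-!
# The orders at `s = 1` of the symmetric power L-functions of `GL(2)` and root lattices

Let `π` be an automorphic representation of `GSp(2) = GL(2)` over `ℚ` with tempered Satake parameters `α_p, β_p` (at
the finitely many ramified primes one may take any complex numbers of absolute value one: this changes the
L-functions by finitely many factors without zeros or poles at `s = 1`).  Automorphy is not used.
`LS α β ω k s` is the Euler product `L(s, Sym^k π ⊗ ω)`, for any function `ω` with values in the unit circle; with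
`ω = (αβ)^a` these are the L-functions of all irreducible representations `Sym^k ⊗ det^a` of the dual group
`GL(2, ℂ)`.  Let `K(m)` be the order of the pole of `L(s, Sym^{2m} π ⊗ det^{-m})` at `s = 1` (minus the order of the
zero).  If `π` is cuspidal and not dihedral, then `K(1) = K(2) = 0` (Gelbart, Jacquet), and `K(3) = K(4) = 0` if it is
neither tetrahedral nor octahedral (Kim, Shahidi).

The question Q1 implies that all these functions are meromorphic at `s = 1`.  The theorem determines what the orders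
can be, and what can not be deduced about them.  The sequence `K` with `K(0) = 1` is called `Listed` if the
differences `d(m) = K(m) - K(m-1)` are `d(1) = -1`, `d(m) = 0` for `m ≥ 2` (all `K(m) = 0`; this is the Sato-Tate
case), or, for some `N ≥ 4`, the function `patA N` of period `N` or `patD N` of period `2N`, or one of the `16`
periodic functions in the list `exc`.

* **Every family.**  Let `2 ≤ M`, `M ≠ 8`, and suppose that the `L(s, Sym^{2m} π ⊗ det^{-m})`, `m ≤ M`, are
  meromorphic at `s = 1` and `K(1) = K(2) = 0`.  Then `K(0), …, K(M)` is the beginning of a listed sequence.  If they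
  are meromorphic at `s = 1` for all `m`, then `K` is a listed sequence.
* **Every listed sequence occurs**, for a tempered family for which ALL `L(s, Sym^k ⊗ det^a)`, and all their products
  with countably many given Euler products, continue to `Re s > 1/2` with no other pole or zero than the power of
  `ζ(s)` (or of the given Euler product) which is required by `K`.
* **No zeros.**  `K(m) ≥ 0` for all `m` if and only if all `K(m) = 0`, `m ≥ 1`, or `K` is one of the `8` sequences
  `excPos`, which contain the three sequences `dim V_{2m}^Γ` for the rotation groups `Γ = A₄, S₄, A₅`.  If there are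
  no zeros for `m ≤ M` and no poles for `m ≤ 6` (that is up to `Sym¹²`), then there are no poles for `m < M`.
* If `K(3) = K(4) = 0`, then `N ≥ 6`, and only `3` of the `16` exceptional sequences remain.
* **Twists.**  In the Sato-Tate case all functions `L(s, Sym^k π ⊗ ω)`, `k ≥ 1`, which belong to a family of
  functions meromorphic at `s = 1` (`ω` fixed, `k` of given parity, twisted by `det^{-⌊k/2⌋}`) have neither a zero nor
  a pole there, whatever `ω` is, for example `ω(p) = χ(p) p^{-it}`.

Proof: `d` is an integer-valued positive definite function on `ℤ` with `d(0) = 2`, so it is the Gram matrix of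
vectors `v_k` of norm two with integral inner products: they generate a root lattice, of type `A_∞` in the Sato-Tate
case, `A_{N-1}` and `D_N` for the two infinite families, and of type `D₄, E₆, E₇, E₈` in the exceptional cases.
-/

set_option autoImplicit false

namespace Pool.Agent.Results.MP_eea520_nt.OrdersAreRootLattices

open Pool.Agent.H70.CS Pool.Agent.H4.RL

/-- `F` is a meromorphic continuation of `L` to the point `s = 1` -/
def MerOne (L F : ℂ → ℂ) : Prop := MeromorphicAt F 1 ∧ ∀ s : ℂ, 1 < s.re → F s = L s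

/-- **The orders of the symmetric power L-functions at `s = 1`.** -/
theorem result :
    -- every family, the symmetric powers with `m ≤ M`
    (∀ (M : ℕ) (α β : Nat.Primes → Circle),
      (∀ m : ℕ, m ≤ M → ∃ F, MerOne (LS α β (fun p => ((α p * β p) ^ m)⁻¹) (2 * m)) F) →
      ∃ K : ℕ → ℤ, K 0 = 1 ∧
        (∀ m : ℕ, m ≤ M → ∀ F : ℂ → ℂ, MerOne (LS α β (fun p => ((α p * β p) ^ m)⁻¹) (2 * m)) F →
          meromorphicOrderAt F 1 = ((-K m : ℤ) : WithTop ℤ)) ∧
        (2 ≤ M → M ≠ 8 → K 1 = 0 → K 2 = 0 → ∃ K', Listed K' ∧ ∀ m, m ≤ M → K m = K' m)) ∧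
    -- every family, all symmetric powers
    (∀ α β : Nat.Primes → Circle,
      (∀ m : ℕ, ∃ F, MerOne (LS α β (fun p => ((α p * β p) ^ m)⁻¹) (2 * m)) F) →
      ∃ K : ℕ → ℤ, K 0 = 1 ∧
        (∀ (m : ℕ) (F : ℂ → ℂ), MerOne (LS α β (fun p => ((α p * β p) ^ m)⁻¹) (2 * m)) F →
          meromorphicOrderAt F 1 = ((-K m : ℤ) : WithTop ℤ)) ∧
        (K 1 = 0 → K 2 = 0 → Listed K) ∧
        -- twists in the Sato-Tate case
        ((∀ m, 1 ≤ m → K m = 0) → ∀ (ω : Nat.Primes → Circle) (e : ℕ), e ≤ 1 →
          (∀ m : ℕ, ∃ F, MerOne (LS α β (fun p => ω p * ((α p * β p) ^ m)⁻¹) (2 * m + e)) F) →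
          ∀ (m : ℕ) (F : ℂ → ℂ), 1 ≤ 2 * m + e →
            MerOne (LS α β (fun p => ω p * ((α p * β p) ^ m)⁻¹) (2 * m + e)) F →
            meromorphicOrderAt F 1 = 0)) ∧
    -- the listed sequences have `K 1 = K 2 = 0`, and all of them occur
    (∀ K, Listed K → K 1 = 0 ∧ K 2 = 0 ∧ OccursAll K) ∧
    -- no zeros
    (∀ K, (Listed K ∧ ∀ m, 0 ≤ K m) ↔
      K 0 = 1 ∧ ((∀ m, 1 ≤ m → K m = 0) ∨ ∃ l ∈ excPos, ∀ m, K m = psum l m)) ∧
    (∀ (M : ℕ) (K : ℕ → ℤ), Listed K → (∀ m, m ≤ M → 0 ≤ K m) →
      K 3 = 0 → K 4 = 0 → K 5 = 0 → K 6 = 0 → ∀ m, 1 ≤ m → m < M → K m = 0) ∧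
    -- the case `K 3 = K 4 = 0`
    (∀ K, Listed K → K 3 = 0 → K 4 = 0 →
      (∀ m, 1 ≤ m → K m = 0) ∨
      (∃ N, 6 ≤ N ∧ ∀ m, K (m + 1) - K m = patA N (m + 1)) ∨
      (∃ N, 6 ≤ N ∧ ∀ m, K (m + 1) - K m = patD N (m + 1)) ∨
      ∃ l, (l = e1 ∨ l = e2 ∨ l = e3) ∧ ∀ m, K m = psum l m) ∧
    -- the groups `A₄`, `S₄`, `A₅`
    (∀ m : ℕ,
      (12 : ℝ) * (per e16 m : ℤ) =
        2 * (1 + 3 * Real.cos (Real.pi * m) + 8 * Real.cos (2 * Real.pi / 3 * m)) ∧
      (24 : ℝ) * (per e7 m : ℤ) =
        2 * (1 + 9 * Real.cos (Real.pi * m) + 8 * Real.cos (2 * Real.pi / 3 * m) +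
          6 * Real.cos (Real.pi / 2 * m)) ∧
      (60 : ℝ) * (per e1 m : ℤ) =
        2 * (1 + 15 * Real.cos (Real.pi * m) + 20 * Real.cos (2 * Real.pi / 3 * m) +
          12 * (Real.cos (2 * Real.pi / 5 * m) + Real.cos (4 * Real.pi / 5 * m)))) := by
  refine ⟨fun M α β h => ?_, fun α β h => ?_,
    fun K hK => ⟨(listed_one_two hK).1, (listed_one_two hK).2, occursAll hK⟩,
    nonneg_iff, fun M K hK hn h3 h4 h5 h6 => sixM hK hn h3 h4 h5 h6, fun K hK h3 h4 => four hK h3 h4,
    fun m => ⟨group_A4 m, group_S4 m, group_A5 m⟩⟩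
  · obtain ⟨K, hord, hK0, hpos⟩ := ordersM M α β fun m hm => by
      obtain ⟨F, hF, hFe⟩ := h m hm
      exact ⟨F, hF, fun s hs => by rw [hFe s hs, LS_ad]⟩
    exact ⟨K, hK0, fun m hm F hF => hord m hm F hF.1 fun s hs => by rw [hF.2 s hs, LS_ad],
      fun hM2 hM8 h1 h2 => listedM hM2 hM8 hpos hK0 h1 h2⟩
  · obtain ⟨K, hord, hK0, hpos, hM⟩ := orders α β fun m => by
      obtain ⟨F, hF, hFe⟩ := h m
      exact ⟨F, hF, fun s hs => by rw [hFe s hs, LS_ad]⟩
    refine ⟨K, hK0, fun m F hF => hord m F hF.1 fun s hs => by rw [hF.2 s hs, LS_ad],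
      fun h1 h2 => listed_of_pos hpos hK0 h1 h2, fun hz ω e he hω m F hm hF => ?_⟩
    exact twist_orders hM hK0 hz he hω m hm F hF.1 hF.2

end Pool.Agent.Results.MP_eea520_nt.OrdersAreRootLattices
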