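import Pool.Agent.H4.ST.Fin

/-!
# The possible limit distributions of the Satake classes of a tempered representation of `GSp(2n)`

Let `π` be an automorphic representation of `GSp(2n)` over `ℚ` with tempered Satake classes `A_p`, points of the
compact torus `Torus n` of `GSpin(2n+1, ℂ)` modulo the Weyl group `W` of order `2ⁿ n!`.  (At the finitely many
ramified primes one may take any `A_p`: this changes the L-functions by finitely many factors.)  A virtual
representation `ρ` is given by the integral multiplicities of its weights, invariant under `W`.  Automorphy is not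
used.  `LFun A ρ s` is the Euler product `∏_p det(1 - ρ(A_p) p^{-s})⁻¹`, which converges for `Re s > 1`.

The question Q1 implies that all the `L(s, A, ρ)` are meromorphic at the point `s = 1`.  The theorem determines
exactly what this means for the distribution of the classes, and what cannot be deduced from it.

* **Every family has a law.**  If all `L(s, A, ρ)` are meromorphic at `s = 1`, then the classes `A_p` are
  equidistributed, in the sense of the Dirichlet density, with respect to one and only one `W`-invariant probability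
  measure `μ` on the torus, and `∫ tr ρ dμ = - ord_{s=1} L(s, A, ρ)`; so `μ` is one of the `Laws`, the
  `W`-invariant probability measures for which all these integrals are integers.
* **Every law occurs, with the continuation of all L-functions to `Re s > 1/2`.**  Let `μ` be any probability measure
  on the torus.  There is a tempered family `A` with the law `μ`, also in the sense of the natural density, such that
  for all `ρ`: `L(s, A, ρ)` is meromorphic at `s = 1` only if `k = ∫ tr ρ dμ` is an integer, and then
  `L(s, A, ρ) = ζ(s)^k e^{g(s)}` with a function `g` holomorphic in `Re s > 1/2`; moreover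
  `L(s, A × B, ρ) = L(s, B)^k e^{g(s)}` for all `B` in a given countable family of Euler products with eigenvalues of
  absolute value at most one (for example all Dirichlet characters).
  In particular, if `μ` is a law, then all `L(s, A, ρ)` continue to meromorphic functions in `Re s > 1/2`.
* **The laws.**  For every law `μ` there are at most `2ⁿ n!` closed subgroups `H_j` of the torus, with Haar probability
  measures `m_j`, and trigonometric polynomials `g_j` with integral coefficients, such that
  `2ⁿ n! μ = ∑_j (Re g_j) m_j`, where `Re g_j ≥ 0` on `H_j` and `∫ Re g_j dm_j ≥ 1`.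
* **The set of all laws is countably infinite.**

The first and third parts use the structure theorem for integer-valued positive definite functions on abelian groups
(`Pool.Agent.H4.CosetThm`), the second one is proved with a greedy choice of the classes.
-/

set_option autoImplicit false

namespace Pool.Agent.Results.MP_eea520_nt.SatoTateLaws

open Pool.Agent.H70.CS Pool.Agent.H4.ST Pool.Agent.H4.Coset MeasureTheory

/-- **The possible laws of the Satake classes.** -/
theorem result (n : ℕ) :
    -- the Euler products converge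
    (∀ (A : Nat.Primes → Torus n) (ρ : Weight n →₀ ℤ) (s : ℂ), 1 < s.re →
      Multipliable fun p : Nat.Primes => ρ.prod fun l m =>
        (1 - (chr (A p) l : ℂ) * ((p : ℕ) : ℂ) ^ (-s)) ^ (-m)) ∧
    -- every family has a law
    (∀ A : Nat.Primes → Torus n,
      (∀ ρ, IsRep ρ → ∃ F : ℂ → ℂ, MeromorphicAt F 1 ∧ ∀ s : ℂ, 1 < s.re → F s = LFun A ρ s) →
      (∃ μ ∈ Laws n, HasLaw A μ ∧
        ∀ ν : Measure (Torus n), IsProbabilityMeasure ν → WInv ν → HasLaw A ν → ν = μ) ∧
      ∀ μ ∈ Laws n, HasLaw A μ → ∀ ρ, IsRep ρ → ∀ F : ℂ → ℂ, MeromorphicAt F 1 →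
        (∀ s : ℂ, 1 < s.re → F s = LFun A ρ s) →
        ∃ k : ℤ, meromorphicOrderAt F 1 = k ∧ ∫ y, chF ρ y ∂μ = -k) ∧
    -- every law occurs
    (∀ (μ : Measure (Torus n)) [IsProbabilityMeasure μ] (ι : Type) [Countable ι] (d : ι → ℕ)
      (B : ∀ i, Nat.Primes → Fin (d i) → ℂ), (∀ i p j, ‖B i p j‖ ≤ 1) →
      ∃ A : Nat.Primes → Torus n, HasLaw A μ ∧ HasNatLaw A μ ∧
        (∀ ρ : Weight n →₀ ℤ,
          (∃ F : ℂ → ℂ, MeromorphicAt F 1 ∧ ∀ s : ℂ, 1 < s.re → F s = LFun A ρ s) →
          ∃ k : ℤ, ∫ y, chF ρ y ∂μ = k) ∧
        ∀ (ρ : Weight n →₀ ℤ) (k : ℤ), ∫ y, chF ρ y ∂μ = k →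
          (∃ g : ℂ → ℂ, DifferentiableOn ℂ g (HP (1 / 2)) ∧
            ∀ s : ℂ, 1 < s.re → LFun A ρ s = riemannZeta s ^ k * Complex.exp (g s)) ∧
          ∀ i, ∃ g : ℂ → ℂ, DifferentiableOn ℂ g (HP (1 / 2)) ∧
            ∀ s : ℂ, 1 < s.re → LTwist A ρ (B i) s = LEuler (B i) s ^ k * Complex.exp (g s)) ∧
    -- the structure of the laws
    (∀ μ ∈ Laws n, ∃ Ps : List (Piece (Weight n)), Ps.length ≤ 2 ^ n * n.factorial ∧
      (∀ P ∈ Ps, (∀ y ∈ ann P.Λ, 0 ≤ (den P y).re) ∧
        1 ≤ ∫ y : ann P.Λ, (den P y).re ∂(hm P.Λ)) ∧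
      ∀ f : C(Torus n, ℝ), ((2 ^ n * n.factorial : ℕ) : ℝ) * ∫ y, f y ∂μ =
        (Ps.map fun P => ∫ y : ann P.Λ, f (y : Torus n) * (den P y).re ∂(hm P.Λ)).sum) ∧
    -- the set of the laws
    (Laws n).Countable ∧ (Laws n).Infinite := by
  refine ⟨fun A ρ s hs => (hasProd_fun A ρ hs).multipliable, fun A h => ⟨?_, ?_⟩,
    ?_, fun μ hμ => law_structure' hμ, laws_countable n, laws_infinite n⟩
  · obtain ⟨μ, ⟨hμ, hl⟩, -⟩ := exists_unique_law A h
    have := hμ.1
    refine ⟨μ, hμ, hl, fun ν hν hW hνl => ?_⟩
    have := hν
    exact law_unique hW hμ.2.1 fun f hf =>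
      tendsto_nhds_unique (law_complex hνl hf) (law_complex hl hf)
  · intro μ hμ hl ρ hρ F hF hFe
    have := hμ.1
    exact order_eq hl hρ hF hFe
  · intro μ _ ι _ d B hB
    exact exists_of_law μ d B hB

end Pool.Agent.Results.MP_eea520_nt.SatoTateLaws
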